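import Mathlib
import Pool.Agent.H62.Spectra

set_option autoImplicit false

namespace Pool.Agent.Results.MP_85e029_nt.NotRelDense

open Pool.Agent.H62.Spectra

theorem result :
    ∃ (g : ℂ) (m : ℕ), IsComplexPisotUnit g ∧ g.im ≠ 0 ∧ 1 < ‖g‖ ∧ 1 ≤ m ∧
      ‖g‖ ^ 2 - 1 < (m : ℝ) ∧ ¬ RelDense (spectrum m g) := by
  obtain ⟨g, hg, h9, h10, h1, h2⟩ := exists_unit
  refine ⟨g, 9, hg, hg.1, hg.2.1, by norm_num, by push_cast; linarith, ?_⟩
  apply not_relDense g 9 _ (by push_cast; linarith) h1 h2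
  nlinarith [norm_nonneg g]

end Pool.Agent.Results.MP_85e029_nt.NotRelDense
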